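import Pool.Agent.Helper94_Rad.Stmt

/-!
# Squad RAD, module NLB: lower bound for `|R c|` far from the roots
-/

set_option autoImplicit false

namespace Pool.Agent.RAD.H81

open Polynomial

lemma prod_lower (ρ : ℝ) (hρ : 0 ≤ ρ) (S : Multiset ℝ) (h : ∀ x ∈ S, ρ ≤ x) :
    ρ ^ S.card ≤ S.prod := by
  induction S using Multiset.induction_on with
  | empty => simp
  | cons a S ih =>
    rw [Multiset.card_cons, Multiset.prod_cons, pow_succ']
    have h1 := h a (Multiset.mem_cons_self a S)
    have h2 := ih fun x hx => h x (Multiset.mem_cons_of_mem hx)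
    exact mul_le_mul h1 h2 (pow_nonneg hρ _) (hρ.trans h1)

theorem nlb : NlbStmt := by
  intro R D ρ c hD hR hρ hN
  set P : ℂ[X] := R.map (Int.castRingHom ℂ) with hP
  have hinj : Function.Injective (Int.castRingHom ℂ) := RingHom.injective_int _
  have hsp : P.Splits := IsAlgClosed.splits P
  have hdeg : P.natDegree = D := by rw [hP, Polynomial.natDegree_map_eq_of_injective hinj, hD]
  have hcard : P.roots.card = D := by rw [← hsp.natDegree_eq_card_roots, hdeg]
  have hlc : P.leadingCoeff = (R.leadingCoeff : ℂ) := by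
    rw [hP, Polynomial.leadingCoeff_map_of_injective hinj]
    rfl
  have hev : P.eval (c : ℂ) = ((R.eval c : ℤ) : ℂ) := by
    rw [hP, Polynomial.eval_intCast_map]
    rfl
  have h1 := hsp.eval_eq_prod_roots (c : ℂ)
  have h2 : ‖((R.eval c : ℤ) : ℂ)‖ = |((R.eval c : ℤ) : ℝ)| := by
    rw [← Complex.ofReal_intCast, Complex.norm_real, Real.norm_eq_abs]
  have h3 : ‖(R.leadingCoeff : ℂ)‖ = |(R.leadingCoeff : ℝ)| := by
    rw [← Complex.ofReal_intCast, Complex.norm_real, Real.norm_eq_abs]
  rw [← h2, ← h3, ← hev, h1, norm_mul, hlc]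
  apply mul_le_mul_of_nonneg_left _ (norm_nonneg _)
  have h4 : ‖(Multiset.map (fun a => (c : ℂ) - a) P.roots).prod‖ =
      (Multiset.map (fun a => ‖(c : ℂ) - a‖) P.roots).prod := by
    have h6 := map_multiset_prod (normHom : ℂ →*₀ ℝ) (Multiset.map (fun a => (c : ℂ) - a) P.roots)
    rw [Multiset.map_map] at h6
    exact h6
  rw [h4]
  have h5 := prod_lower ρ hρ (Multiset.map (fun a => ‖(c : ℂ) - a‖) P.roots) (by
    intro x hx
    obtain ⟨α, hα, rfl⟩ := Multiset.mem_map.1 hx
    by_contra hc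
    rw [not_le] at hc
    exact hN ⟨α, hα, hc⟩)
  rw [Multiset.card_map, hcard] at h5
  exact h5

end Pool.Agent.RAD.H81
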